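import Pool.Agent.Helper59.AN.Goals

/-!
# MP_4137ca_lc: packet KEY (the rank lemma)
-/

noncomputable section

namespace AN.PkKEY

open Pool.Agent.Helper97.Ku NU BSet

variable {X : Type} [LinearOrder X]

theorem cf_symm (R : Rnk X) {I : Type} {v w : Vx I X} (h : Cf R v w) : Cf R w v := by
  cases v with
  | a i s σ =>
    cases w with
    | a i' s' σ' => exact h
    | g i' x' s' =>
      obtain ⟨h1, h2, h3, h4⟩ := h
      subst h1 h2
      exact ⟨rfl, rfl, h3, h4⟩
  | g i x s =>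
    cases w with
    | a i' s' σ' =>
      obtain ⟨h1, h2, h3, h4⟩ := h
      subst h1 h2
      exact ⟨rfl, rfl, h3, h4⟩
    | g i' x' s' =>
      obtain ⟨h1, h2, h3⟩ := h
      subst h1 h2
      exact ⟨rfl, rfl, h3.symm⟩

/-- The set of bad vertices. -/
def Bad (R : Rnk X) {I : Type} (b b' : X) (H : Set (I × X)) (p : Cd R I) : Set (Vx I X) :=
  {u | ∃ i x s n, u = Vx.g i x (n :: s) ∧ Vx.g i x s ∈ p.1 ∧ (i, x) ∉ H ∧ b' < R.rk x s ∧
    R.rk x (n :: s) ≤ b}

theorem bad_finite (R : Rnk X) {I : Type} (b b' : X) (H : Set (I × X)) (p : Cd R I)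
    (h1 : R.one ≤ b) (h2 : b < b') : (Bad R b b' H p).Finite := by
  have key : ∀ v : Vx I X, {u | ∃ i x s n, v = Vx.g i x s ∧ u = Vx.g i x (n :: s) ∧
      b' < R.rk x s ∧ R.rk x (n :: s) ≤ b}.Finite := by
    intro v
    cases v with
    | a i s σ =>
      refine Set.Finite.subset (Set.finite_empty) ?_
      rintro u ⟨i, x, s, n, h, _⟩
      exact absurd h (by simp)
    | g i x s =>
      by_cases hb : b' < R.rk x s
      · have hf := R.fin x s b b' (h1.trans_lt (h2.trans hb)) h2 hb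
        refine Set.Finite.subset (hf.image fun n => Vx.g i x (n :: s)) ?_
        rintro u ⟨i', x', s', n, h, hu, _, h4⟩
        injection h with e1 e2 e3
        subst e1 e2 e3
        exact ⟨n, h4, hu.symm⟩
      · refine Set.Finite.subset (Set.finite_empty) ?_
        rintro u ⟨i', x', s', n, h, hu, h3, h4⟩
        injection h with e1 e2 e3
        subst e1 e2 e3
        exact absurd h3 hb
  refine Set.Finite.subset (Set.Finite.biUnion (Finset.finite_toSet p.1) fun v _ => key v) ?_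
  rintro u ⟨i, x, s, n, h, h3, _, h5, h6⟩
  rw [Set.mem_iUnion₂]
  exact ⟨Vx.g i x s, h3, i, x, s, n, rfl, h, h5, h6⟩

theorem step1 (h12 : G_X12) (R : Rnk X) {I : Type} (b b' : X) (H : Set (I × X)) (p : Cd R I)
    (h1 : R.one ≤ b) (h2 : b < b') : ∃ p₀ : Cd R I, p₀ ≤ p ∧
      (∀ v ∈ p₀.1, v ∈ p.1 ∨ LowV R b' H v) ∧
      ∀ u ∈ Bad R b b' H p, ∃ w ∈ p₀.1, Cf R u w ∧ LowV R b' H w := by
  classical
  have hfin := bad_finite R b b' H p h1 h2
  have key : ∀ T : Finset (Vx I X), (T : Set (Vx I X)) ⊆ Bad R b b' H p →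
      ∃ p₀ : Cd R I, p₀ ≤ p ∧ (∀ v ∈ p₀.1, v ∈ p.1 ∨ LowV R b' H v) ∧
      ∀ u ∈ T, ∃ w ∈ p₀.1, Cf R u w ∧ LowV R b' H w := by
    intro T
    induction T using Finset.induction_on with
    | empty =>
      intro _
      refine ⟨p, le_refl p, fun v hv => Or.inl hv, ?_⟩
      intro u hu
      exact absurd hu (Finset.notMem_empty u)
    | insert u T hu ih =>
      intro hT
      obtain ⟨p₀, hp, hlow, hw⟩ := ih fun v hv => hT (by simp [Finset.mem_coe.1 hv])
      have hbad : u ∈ Bad R b b' H p := hT (by simp)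
      obtain ⟨i, x, s, n, rfl, hs, hH, hbs, hbn⟩ := hbad
      have hone : R.one < R.rk x s := h1.trans_lt (h2.trans hbs)
      have hs0 : Vx.g i x s ∈ p₀.1 := hp hs
      have hnot : Vx.g i x (n :: s) ∉ p₀.1 := by
        intro hc
        exact p₀.2 _ hs0 _ hc ⟨rfl, rfl, Or.inl ⟨⟨n, rfl⟩, hone⟩⟩
      obtain ⟨hA, hB⟩ := h12 X R I p₀ i x (n :: s) hnot
      by_cases hc : R.one < R.rk x (n :: s)
      · obtain ⟨m, q, hq, hm, hv⟩ := hA hc
        have hl : LowV R b' H (Vx.g i x (m :: n :: s)) :=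
          Or.inr (((R.lt x (n :: s) m hc).le.trans hbn).trans h2.le)
        refine ⟨q, le_trans hq hp, ?_, ?_⟩
        · intro v hv'
          rcases hv v hv' with h | h
          · exact hlow v h
          · rw [h]
            exact Or.inr hl
        · intro u hu'
          rcases Finset.mem_insert.1 hu' with h | h
          · rw [h]
            exact ⟨_, hm, ⟨rfl, rfl, Or.inl ⟨⟨m, rfl⟩, hc⟩⟩, hl⟩
          · obtain ⟨w, hw1, hw2, hw3⟩ := hw u h
            exact ⟨w, hq hw1, hw2, hw3⟩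
      · obtain ⟨σ, hσ, q, hq, hm, hv⟩ := hB hc
        have hl : LowV R b' H (Vx.a i (n :: s) σ) := trivial
        refine ⟨q, le_trans hq hp, ?_, ?_⟩
        · intro v hv'
          rcases hv v hv' with h | h
          · exact hlow v h
          · rw [h]
            exact Or.inr hl
        · intro u hu'
          rcases Finset.mem_insert.1 hu' with h | h
          · rw [h]
            exact ⟨_, hm, ⟨rfl, rfl, hc, hσ⟩, hl⟩
          · obtain ⟨w, hw1, hw2, hw3⟩ := hw u h
            exact ⟨w, hq hw1, hw2, hw3⟩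
  obtain ⟨p₀, hp, hlow, hw⟩ := key hfin.toFinset (by simp)
  exact ⟨p₀, hp, hlow, fun u hu => hw u (by simpa using hu)⟩

theorem key : G_X12 → G_KEY := by
  classical
  intro h12 X _ R I b b' H c h1 h2 hc p hp
  obtain ⟨p₀, hp0, hlow, hw⟩ := step1 h12 R b b' H p h1 h2
  let p₁ : Cd R I := ⟨p₀.1.filter fun v => LowV R b' H v, fun v hv w hw' =>
    p₀.2 v (Finset.mem_filter.1 hv).1 w (Finset.mem_filter.1 hw').1⟩
  have hp1 : ∀ v, v ∈ p₁.1 ↔ v ∈ p₀.1 ∧ LowV R b' H v := fun v => Finset.mem_filter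
  have h01 : p₀ ≤ p₁ := fun v hv => ((hp1 v).1 hv).1
  -- the crossing edges
  have cross : ∀ q t : Cd R I, (∀ v ∈ q.1, LowV R b H v) → t ≤ q → t ≤ p₁ →
      ∀ v ∈ q.1, ∀ w ∈ p₀.1, ¬ Cf R v w := by
    intro q t hq htq htp v hv w hw0 hcf
    by_cases hw1 : LowV R b' H w
    · exact t.2 v (htq hv) w (htp ((hp1 w).2 ⟨hw0, hw1⟩)) hcf
    · have hwp : w ∈ p.1 := (hlow w hw0).resolve_right hw1
      cases w with
      | a i s σ => exact hw1 trivial
      | g i x s =>
        have hH : (i, x) ∉ H := fun h => hw1 (Or.inl h)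
        have hbs : b' < R.rk x s := not_le.1 fun h => hw1 (Or.inr h)
        have hone : R.one < R.rk x s := h1.trans_lt (h2.trans hbs)
        cases v with
        | a i' s' σ =>
          obtain ⟨e1, e2, e3, _⟩ := hcf
          subst e1 e2
          exact e3 hone
        | g i' x' s' =>
          obtain ⟨e1, e2, e3⟩ := hcf
          subst e1 e2
          have hlv : R.rk x' s' ≤ b := (hq _ hv).resolve_left hH
          rcases e3 with ⟨⟨n, e⟩, e4⟩ | ⟨⟨n, e⟩, e4⟩
          · have := R.lt x' s' n e4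
            rw [← e] at this
            exact absurd (hbs.trans (this.trans_le hlv)) (not_lt.2 h2.le)
          · subst e
            obtain ⟨w', hw1', hw2', hw3'⟩ := hw (Vx.g i' x' (n :: s))
              ⟨i', x', s, n, rfl, hwp, hH, hbs, hlv⟩
            exact t.2 _ (htq hv) w' (htp ((hp1 w').2 ⟨hw1', hw3'⟩)) hw2'
  refine ⟨p₁, ?_, fun v hv => ((hp1 v).1 hv).2, p₀, hp0, h01⟩
  rw [RO.mem_compl]
  intro r hr hrc
  obtain ⟨q, hqc, hq, t, htr, htq⟩ := hc r hrc
  have hx := cross q t hq htq (le_trans htr hr)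
  let z : Cd R I := ⟨q.1 ∪ p₀.1, by
    intro v hv w hw'
    rcases Finset.mem_union.1 hv with h | h
    · rcases Finset.mem_union.1 hw' with h' | h'
      · exact q.2 v h w h'
      · exact hx v h w h'
    · rcases Finset.mem_union.1 hw' with h' | h'
      · exact fun hcf => hx w h' v h (cf_symm R hcf)
      · exact p₀.2 v h w h'⟩
  have hzq : z ≤ q := fun v hv => Finset.mem_union.2 (Or.inl hv)
  have hzp : z ≤ p := fun v hv => Finset.mem_union.2 (Or.inr (hp0 hv))
  exact RO.not_mem_compl (RO.lower hzq hqc) (RO.lower hzp hp)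

end AN.PkKEY
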